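import Pool.Agent.J4H12.TB.Stm

/-!
# Project TB (MP_877ce7_an): hyperbolic solutions have unbounded sides
-/

namespace Pool.Agent.J4H56.TB

open Pool.Agent.J4H12.TB Filter Topology Set

theorem quad_le {R J J' : ℝ → ℝ} {E : ℝ} (hR : ∀ t, HasDerivAt R (2 * J t) t)
    (hJ : ∀ t, HasDerivAt J (J' t) t) (hE : ∀ t, 2 * E ≤ J' t) (t : ℝ) :
    R 0 + t * (2 * J 0 + 2 * E * t) ≤ R t := by
  have hg : Monotone fun t => J t - 2 * E * t := by
    refine monotone_of_hasDerivAt_nonneg (f' := fun t => J' t - 2 * E) (fun t => ?_) fun t => ?_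
    · have := (hJ t).sub ((hasDerivAt_id t).const_mul (2 * E))
      rw [mul_one] at this
      exact this
    · simp only [Pi.zero_apply]; linarith [hE t]
  have hf : ∀ t, HasDerivAt (fun t => R t - t * (2 * J 0 + 2 * E * t))
      (2 * (J t - 2 * E * t - J 0)) t := by
    intro t
    have h1 := (hasDerivAt_id t).mul (((hasDerivAt_id t).const_mul (2 * E)).const_add (2 * J 0))
    have h2 := (hR t).sub h1
    refine (h2.congr_deriv ?_)
    simp only [id]
    ring
  rcases lt_trichotomy t 0 with h | h | h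
  · obtain ⟨c, hc, he⟩ := exists_hasDerivAt_eq_slope _ _ h
      (fun x _ => (hf x).continuousAt.continuousWithinAt) fun x _ => hf x
    have h1 := hg hc.2.le
    simp only at h1 he
    rw [eq_div_iff (by linarith)] at he
    nlinarith [mul_nonneg_of_nonpos_of_nonpos (a := 2 * (J c - 2 * E * c - J 0)) (b := t)
      (by linarith) h.le]
  · subst h; simp
  · obtain ⟨c, hc, he⟩ := exists_hasDerivAt_eq_slope _ _ h
      (fun x _ => (hf x).continuousAt.continuousWithinAt) fun x _ => hf x
    have h1 := hg hc.1.le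
    simp only at h1 he
    rw [eq_div_iff (by linarith)] at he
    nlinarith [mul_nonneg (a := 2 * (J c - 2 * E * c - J 0)) (b := t) (by linarith) h.le]

theorem tend_rho {R J J' : ℝ → ℝ} {E : ℝ} (hE0 : 0 < E) (hR : ∀ t, HasDerivAt R (2 * J t) t)
    (hJ : ∀ t, HasDerivAt J (J' t) t) (hE : ∀ t, 2 * E ≤ J' t) :
    Tendsto R atTop atTop ∧ Tendsto R atBot atTop := by
  have h := quad_le hR hJ hE
  constructor
  · refine tendsto_atTop_mono h (tendsto_atTop_add_const_left _ _ ?_)
    refine tendsto_id.atTop_mul_atTop₀ (tendsto_atTop_add_const_left _ _ ?_)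
    exact tendsto_id.const_mul_atTop (by positivity)
  · refine tendsto_atTop_mono h (tendsto_atTop_add_const_left _ _ ?_)
    refine tendsto_id.atBot_mul_atBot₀ (tendsto_atBot_add_const_left _ _ ?_)
    exact tendsto_id.const_mul_atBot (by positivity)

theorem tend_D {m : Fin 3 → ℝ} {q : Fin 3 → ℝ → ℂ} {l : Filter ℝ} {s : Fin 3 → ℂ}
    (hs : Function.Injective s) (hpos : ∀ t, 0 < rho m q t)
    (h2 : Tendsto (fun t => rho m q t ^ 2) l atTop)
    (h : ∀ a, Tendsto (fun t => q a t / (massNorm m fun b => q b t : ℝ)) l (𝓝 (s a)))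
    (a : Fin 3) : Tendsto (D q a) l atTop := by
  have hr : Tendsto (rho m q) l atTop := by
    have := Real.tendsto_sqrt_atTop.comp h2
    refine this.congr fun t => ?_
    simp only [Function.comp_apply]
    exact Real.sqrt_sq (hpos t).le
  have hne : s (a + 2) ≠ s (a + 1) := by
    intro he
    have := hs he
    have h12 : (2 : Fin 3) = 1 := add_left_cancel this
    exact absurd h12 (by decide)
  have hc : Tendsto (fun t => D q a t / rho m q t) l (𝓝 ‖s (a + 2) - s (a + 1)‖) := by
    have := ((h (a + 2)).sub (h (a + 1))).norm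
    refine this.congr fun t => ?_
    rw [← sub_div, norm_div, Complex.norm_real]
    rw [show massNorm m (fun b => q b t) = rho m q t from rfl, Real.norm_of_nonneg (hpos t).le]
    rfl
  have := Tendsto.pos_mul_atTop (norm_pos_iff.2 (sub_ne_zero.2 hne)) hc hr
  refine this.congr fun t => ?_
  exact div_mul_cancel₀ _ (hpos t).ne'

theorem acc_eq (m : Fin 3 → ℝ) (q : Fin 3 → ℝ → ℂ) (a : Fin 3) (t : ℝ) :
    ∑ b ∈ Finset.univ.erase a, ((m b / ‖q b t - q a t‖ ^ 3 : ℝ) : ℂ) * (q b t - q a t)
      = acc m q a t := by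
  have he : Finset.univ.erase a = {a + 1, a + 2} := by
    fin_cases a <;> decide
  have hne : a + 1 ≠ a + 2 := by
    intro h
    exact absurd (add_left_cancel h) (by decide)
  rw [he, Finset.sum_pair hne]
  rfl

theorem t_HYP (hB : S_BAS) : S_HYP := by
  intro m q hm h
  obtain ⟨E, hE, hen⟩ := h.energyPos
  have hS : Sol m E q (fun a => deriv (q a)) := by
    refine ⟨hm, hE, fun t a b hab he => hab (h.collisionFree t he),
      fun a t => (h.differentiable a t).hasDerivAt, fun a t => ?_, h.centre, hen⟩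
    rw [← acc_eq]
    exact h.newton a t
  obtain ⟨C, -, hC⟩ := hB m hm
  have hb := hC E q _ hS
  obtain ⟨hT, hB'⟩ := tend_rho hE hb.dsq hb.dJ fun t => by linarith [hb.U0 t]
  obtain ⟨s, hs, hs'⟩ := h.future
  obtain ⟨s1, hs1, hs1'⟩ := h.past
  refine ⟨E, hS, fun a => ⟨fun T B => ?_, fun T B => ?_⟩⟩
  · exact ((eventually_ge_atTop T).and
      ((tend_D hs hb.rpos hT hs' a).eventually_gt_atTop B)).exists
  · exact ((eventually_le_atBot T).and
      ((tend_D hs1 hb.rpos hB' hs1' a).eventually_gt_atTop B)).exists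

end Pool.Agent.J4H56.TB
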