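import Pool.Agent.J4H12.TB.Stm

/-!
# Project TB (MP_877ce7_an): invariance under time shift, reversal, scaling and renumbering
-/

namespace Pool.Agent.J4H56.TB

open Pool.Agent.J4H12.TB Filter Topology Set

theorem t_SHT : S_SHT := by
  intro m E s q v h
  refine ⟨h.mpos, h.Epos, fun t => h.ne _, fun a t => ?_, fun a t => ?_, fun t => h.cm _,
    fun t => ?_⟩
  · exact HasDerivAt.comp_add_const t s (h.dq a (t + s))
  · exact HasDerivAt.comp_add_const t s (h.dv a (t + s))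
  · exact h.en (t + s)

theorem t_REV : S_REV := by
  intro m E q v h
  refine ⟨⟨h.mpos, h.Epos, fun t => h.ne _, fun a t => ?_, fun a t => ?_, fun t => h.cm _,
    fun t => ?_⟩, fun t => ?_⟩
  · have := (h.dq a (-t)).scomp t (hasDerivAt_neg t)
    rw [neg_one_smul] at this
    exact this
  · have := ((h.dv a (-t)).scomp t (hasDerivAt_neg t)).neg
    rw [neg_one_smul, neg_neg] at this
    exact this
  · have := h.en (-t)
    simpa [Kin, U, D] using this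
  · simp only [J, dt, ← Finset.sum_neg_distrib]
    refine Finset.sum_congr rfl fun a _ => ?_
    simp only [Complex.neg_re, Complex.neg_im]
    ring

section
variable {k : ℝ} {q v : Fin 3 → ℝ → ℂ}

theorem nsc (hk : 0 < k) (z : ℂ) : ‖(((k ^ 2)⁻¹ : ℝ) : ℂ) * z‖ = (k ^ 2)⁻¹ * ‖z‖ := by
  rw [norm_mul, Complex.norm_real, Real.norm_of_nonneg (by positivity)]

theorem nsc' (hk : 0 < k) (z : ℂ) : ‖(k : ℂ) * z‖ = k * ‖z‖ := by
  rw [norm_mul, Complex.norm_real, Real.norm_of_nonneg hk.le]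

theorem D_sc (hk : 0 < k) (a : Fin 3) (t : ℝ) :
    D (fun a t => ((k ^ 2)⁻¹ : ℝ) * q a (k ^ 3 * t)) a t = (k ^ 2)⁻¹ * D q a (k ^ 3 * t) := by
  simp only [D]
  rw [← mul_sub, nsc hk]

theorem acc_sc (hk : 0 < k) (m : Fin 3 → ℝ) (a : Fin 3) (t : ℝ) :
    acc m (fun a t => ((k ^ 2)⁻¹ : ℝ) * q a (k ^ 3 * t)) a t
      = (k : ℂ) * ((k ^ 3 : ℝ) * acc m q a (k ^ 3 * t)) := by
  have hk' : (k : ℂ) ≠ 0 := by exact_mod_cast hk.ne'
  simp only [acc]
  rw [← mul_sub, ← mul_sub, nsc hk, nsc hk]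
  have key : ∀ (c n : ℝ) (z : ℂ), ((c / ((k ^ 2)⁻¹ * n) ^ 3 : ℝ) : ℂ) * ((((k ^ 2)⁻¹ : ℝ) : ℂ) * z)
      = (k : ℂ) * ((k ^ 3 : ℝ) * (((c / n ^ 3 : ℝ) : ℂ) * z)) := by
    intro c n z
    have : c / ((k ^ 2)⁻¹ * n) ^ 3 * (k ^ 2)⁻¹ = k * k ^ 3 * (c / n ^ 3) := by
      rw [mul_pow, inv_pow]
      rcases eq_or_ne n 0 with rfl | hn
      · simp
      · field_simp
    calc ((c / ((k ^ 2)⁻¹ * n) ^ 3 : ℝ) : ℂ) * ((((k ^ 2)⁻¹ : ℝ) : ℂ) * z)
        = ((c / ((k ^ 2)⁻¹ * n) ^ 3 * (k ^ 2)⁻¹ : ℝ) : ℂ) * z := by push_cast; ring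
      _ = _ := by rw [this]; push_cast; ring
  rw [key, key]
  ring

theorem hd_sc {f : ℝ → ℂ} {f' : ℂ} (c : ℂ) (t : ℝ) (h : HasDerivAt f f' (k ^ 3 * t)) :
    HasDerivAt (fun t => c * f (k ^ 3 * t)) (c * ((k ^ 3 : ℝ) * f')) t := by
  have h1 : HasDerivAt (fun t : ℝ => k ^ 3 * t) (k ^ 3) t := by
    simpa using (hasDerivAt_id t).const_mul (k ^ 3)
  have h2 := (h.scomp t h1).const_mul c
  rw [Complex.real_smul] at h2
  exact h2

theorem ecl_sc (hk : 0 < k) (a : Fin 3) (t : ℝ) :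
    Ecl (fun a t => ((k ^ 2)⁻¹ : ℝ) * q a (k ^ 3 * t)) a t ↔ Ecl q a (k ^ 3 * t) := by
  have hk' : (((k ^ 2)⁻¹ : ℝ) : ℂ) ≠ 0 := by
    have : (k ^ 2)⁻¹ ≠ 0 := by positivity
    exact_mod_cast this
  simp only [Ecl, openSegment, Set.mem_ofPred_eq]
  constructor
  · rintro ⟨x, y, hx, hy, hxy, h⟩
    refine ⟨x, y, hx, hy, hxy, mul_left_cancel₀ hk' ?_⟩
    rw [← h]
    simp only [Complex.real_smul]
    ring
  · rintro ⟨x, y, hx, hy, hxy, h⟩
    refine ⟨x, y, hx, hy, hxy, ?_⟩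
    rw [← h]
    simp only [Complex.real_smul]
    ring

end

theorem t_SCL : S_SCL := by
  intro m E k q v h hk
  have hk3 : (k ^ 2)⁻¹ * k ^ 3 = k := by field_simp
  have hk3' : ((((k ^ 2)⁻¹ : ℝ) : ℂ) * ((k ^ 3 : ℝ) : ℂ)) = (k : ℂ) := by
    rw [← Complex.ofReal_mul, hk3]
  have hrho : ∀ t, rho m (fun a t => ((k ^ 2)⁻¹ : ℝ) * q a (k ^ 3 * t)) t
      = (k ^ 2)⁻¹ * rho m q (k ^ 3 * t) := by
    intro t
    simp only [rho]
    have : ∑ a, m a * ‖(((k ^ 2)⁻¹ : ℝ) : ℂ) * q a (k ^ 3 * t)‖ ^ 2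
        = ((k ^ 2)⁻¹) ^ 2 * ∑ a, m a * ‖q a (k ^ 3 * t)‖ ^ 2 := by
      rw [Finset.mul_sum]
      refine Finset.sum_congr rfl fun a _ => ?_
      rw [nsc hk]; ring
    rw [this, Real.sqrt_mul (by positivity), Real.sqrt_sq (by positivity)]
  have hJ : ∀ t, J m (fun a t => ((k ^ 2)⁻¹ : ℝ) * q a (k ^ 3 * t))
      (fun a t => (k : ℂ) * v a (k ^ 3 * t)) t = k⁻¹ * J m q v (k ^ 3 * t) := by
    intro t
    simp only [J, dt, Finset.mul_sum]
    refine Finset.sum_congr rfl fun a _ => ?_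
    simp only [Complex.re_ofReal_mul, Complex.im_ofReal_mul]
    field_simp
  refine ⟨⟨h.mpos, mul_pos (by positivity) h.Epos, ?_, ?_, ?_, ?_, ?_⟩, fun t => ⟨hrho t, hJ t,
    ?_, fun a => D_sc hk a t, ?_, ?_, fun a => ecl_sc hk a t⟩⟩
  · intro t a b hab he
    have hk' : (((k ^ 2)⁻¹ : ℝ) : ℂ) ≠ 0 := by
      have : (k ^ 2)⁻¹ ≠ 0 := by positivity
      exact_mod_cast this
    exact h.ne _ a b hab (mul_left_cancel₀ hk' he)
  · intro a t
    have := hd_sc (((k ^ 2)⁻¹ : ℝ) : ℂ) t (h.dq a (k ^ 3 * t))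
    rw [← mul_assoc, hk3'] at this
    exact this
  · intro a t
    have := hd_sc (k : ℂ) t (h.dv a (k ^ 3 * t))
    rw [acc_sc hk]
    exact this
  · intro t
    have := h.cm (k ^ 3 * t)
    calc ∑ a, (m a : ℂ) * ((((k ^ 2)⁻¹ : ℝ) : ℂ) * q a (k ^ 3 * t))
        = (((k ^ 2)⁻¹ : ℝ) : ℂ) * ∑ a, (m a : ℂ) * q a (k ^ 3 * t) := by
          rw [Finset.mul_sum]
          exact Finset.sum_congr rfl fun a _ => by ring
      _ = 0 := by rw [this, mul_zero]
  · intro t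
    have := h.en (k ^ 3 * t)
    rw [← this]
    simp only [Kin, U]
    have h1 : ∑ a, m a * ‖(k : ℂ) * v a (k ^ 3 * t)‖ ^ 2
        = k ^ 2 * ∑ a, m a * ‖v a (k ^ 3 * t)‖ ^ 2 := by
      rw [Finset.mul_sum]
      refine Finset.sum_congr rfl fun a _ => ?_
      rw [nsc' hk]; ring
    have h2 : ∑ a : Fin 3, m (a + 1) * m (a + 2) /
          D (fun a t => ((k ^ 2)⁻¹ : ℝ) * q a (k ^ 3 * t)) a t
        = k ^ 2 * ∑ a : Fin 3, m (a + 1) * m (a + 2) / D q a (k ^ 3 * t) := by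
      rw [Finset.mul_sum]
      refine Finset.sum_congr rfl fun a _ => ?_
      rw [D_sc hk]
      rcases eq_or_ne (D q a (k ^ 3 * t)) 0 with h0 | h0
      · rw [h0]; simp
      · field_simp
    rw [h1, h2]; ring
  · simp only [vv]
    rw [hJ, hrho, Real.sqrt_mul (by positivity)]
    have : √((k ^ 2)⁻¹) = k⁻¹ := by
      rw [Real.sqrt_inv, Real.sqrt_sq hk.le]
    rw [this]
    rw [mul_div_mul_left _ _ (by positivity)]
  · intro a
    simp only [psi, dt, ← mul_sub, Complex.re_ofReal_mul, Complex.im_ofReal_mul]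
    ring
  · simp only [chi, cr, ← mul_sub, Complex.re_ofReal_mul, Complex.im_ofReal_mul]
    ring

theorem t_CYC : S_CYC := by
  intro m E q v c h
  have hs : ∀ f : Fin 3 → ℝ, ∑ a, f (a + c) = ∑ a, f a := fun f =>
    Equiv.sum_comp (Equiv.addRight c) f
  have hsC : ∀ f : Fin 3 → ℂ, ∑ a, f (a + c) = ∑ a, f a := fun f =>
    Equiv.sum_comp (Equiv.addRight c) f
  have e1 : ∀ a : Fin 3, a + 1 + c = a + c + 1 := fun a => add_right_comm _ _ _
  have e2 : ∀ a : Fin 3, a + 2 + c = a + c + 2 := fun a => add_right_comm _ _ _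
  have hD : ∀ t a, D (fun a => q (a + c)) a t = D q (a + c) t := by
    intro t a
    simp only [D, e1, e2]
  have hK : ∀ t, Kin (fun a => m (a + c)) (fun a => v (a + c)) t = Kin m v t := by
    intro t
    simp only [Kin]
    rw [hs fun a => m a * ‖v a t‖ ^ 2]
  have hR : ∀ t, rho (fun a => m (a + c)) (fun a => q (a + c)) t = rho m q t := by
    intro t
    simp only [rho]
    rw [hs fun a => m a * ‖q a t‖ ^ 2]
  have hJ : ∀ t, J (fun a => m (a + c)) (fun a => q (a + c)) (fun a => v (a + c)) t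
      = J m q v t := by
    intro t
    simp only [J]
    rw [hs fun a => m a * dt (q a t) (v a t)]
  refine ⟨⟨fun a => h.mpos _, h.Epos, fun t a b hab => h.ne _ _ _ (by simpa using hab),
    fun a => h.dq _, fun a t => ?_, fun t => ?_, fun t => ?_⟩,
    fun t => ⟨hR t, hJ t, ?_, ?_, hD t, ?_, ?_, ?_⟩⟩
  · have : acc (fun a => m (a + c)) (fun a => q (a + c)) a t = acc m q (a + c) t := by
      simp only [acc, e1, e2]
    rw [this]
    exact h.dv _ t
  · rw [hsC fun a => (m a : ℂ) * q a t]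
    exact h.cm t
  · rw [hK, ← h.en t]
    congr 1
    simp only [U, hD]
    rw [← hs fun a => m (a + 1) * m (a + 2) / D q a t]
    simp only [e1, e2]
  · simp only [W, hK, hJ, hR]
  · simp only [vv, hJ, hR]
  · intro a
    simp only [psi, e1, e2]
  · fin_cases c
    · rfl
    · simp only [chi, cr]
      show _ = _
      have a0 : (0 : Fin 3) + 1 = 1 := rfl
      have a1 : (1 : Fin 3) + 1 = 2 := rfl
      have a2 : (2 : Fin 3) + 1 = 0 := rfl
      simp only [Fin.mk_one, a0, a1, a2, Complex.sub_re, Complex.sub_im]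
      ring
    · simp only [chi, cr]
      have a0 : (0 : Fin 3) + 2 = 2 := rfl
      have a1 : (1 : Fin 3) + 2 = 0 := rfl
      have a2 : (2 : Fin 3) + 2 = 1 := rfl
      simp only [Fin.reduceFinMk, a0, a1, a2, Complex.sub_re, Complex.sub_im]
      ring
  · intro a
    simp only [Ecl, e1, e2]

end Pool.Agent.J4H56.TB
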