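import Pool.Agent.J4H12.TB.Stm

/-!
# Project TB (MP_877ce7_an): reduced words give alternating chains of eclipses
-/

namespace Pool.Agent.J4H56.TB

open Pool.Agent.J4H12.TB Filter Topology Set

theorem sub_of_del {w w' : List (Fin 3)} (h : Relation.ReflTransGen Del w w') :
    w'.Sublist w := by
  induction h with
  | refl => exact List.Sublist.refl _
  | tail _ h ih =>
    refine List.Sublist.trans ?_ ih
    cases h with
    | del u v a =>
      refine List.Sublist.append (List.Sublist.refl _) ?_
      exact (List.Sublist.refl v).cons a |>.cons a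

theorem sub_forall₂ {α β : Type*} {R : α → β → Prop} {w w' : List α} (hs : w'.Sublist w) :
    ∀ τ : List β, List.Forall₂ R w τ → ∃ τ' : List β, τ'.Sublist τ ∧ List.Forall₂ R w' τ' := by
  induction hs with
  | slnil => intro τ h; exact ⟨τ, List.Sublist.refl _, h⟩
  | cons a _ ih =>
    intro τ h
    cases h with
    | cons h1 h2 =>
      obtain ⟨τ', h3, h4⟩ := ih _ h2
      exact ⟨τ', h3.cons _, h4⟩
  | cons_cons a _ ih =>
    intro τ h
    cases h with
    | cons h1 h2 =>
      obtain ⟨τ', h3, h4⟩ := ih _ h2
      exact ⟨_ :: τ', h3.cons_cons _, List.Forall₂.cons h1 h4⟩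

theorem t_WRD : S_WRD := by
  rintro q w ⟨w0, ⟨τ0, hτ0, -, hF⟩, hD, hr⟩ hw
  obtain ⟨τ1, h1, h2⟩ := sub_forall₂ (sub_of_del hD) τ0 hF
  have hp : τ1.Pairwise (· < ·) := hτ0.sublist h1
  have hlen : w.length = τ1.length := h2.length_eq
  have hpos : 0 < w.length := List.length_pos_iff.2 hw
  refine ⟨fun i => τ1.getD i 0, fun i => w.getD i 0, fun i hi => ?_, fun i hi => ?_,
    fun i hi => ?_⟩
  · have a1 : i < τ1.length := by omega
    have a2 : i + 1 < τ1.length := by omega
    simp only
    rw [List.getD_eq_getElem _ _ a1, List.getD_eq_getElem _ _ a2]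
    exact List.pairwise_iff_getElem.1 hp i (i + 1) a1 a2 (by omega)
  · have a1 : i < τ1.length := by omega
    have a2 : i < w.length := by omega
    simp only
    rw [List.getD_eq_getElem _ _ a1, List.getD_eq_getElem _ _ a2]
    exact (List.forall₂_iff_get.1 h2).2 i a2 a1
  · have a1 : i < w.length := by omega
    have a2 : i + 1 < w.length := by omega
    simp only
    rw [List.getD_eq_getElem _ _ a1, List.getD_eq_getElem _ _ a2]
    intro he
    refine hr (w.take i) (w.drop (i + 2)) w[i] ?_
    conv_lhs => rw [← List.take_append_drop i w]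
    congr 1
    rw [List.drop_eq_getElem_cons a1, List.drop_eq_getElem_cons a2, ← he]

end Pool.Agent.J4H56.TB
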